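import Pool.Agent.helper64.PB.SpecA

/-!
# pb:DNF (project MP_069684_lc, spec by helper64)
-/

set_option autoImplicit false

namespace Pool.Agent.PB

theorem DNF_gate (G : Set Gate) (g : Gate) (hg : g ∈ G) : InCl G g.2 := by
  refine ⟨1, [fun x => g.2 fun i => x i], ?_, le_refl _, Or.inl ?_⟩
  · exact Prog.step [] g (fun i x => x i) Prog.nil hg (fun i => Or.inr ⟨i, rfl⟩)
  · exact List.mem_cons_self

theorem DNF_const (hCLP : CLP_stmt) (G : Set Gate) (b : Bool) (hb : gConst b ∈ G) (n : ℕ) :
    InCl G (fun _ : Fin n → Bool => b) :=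
  hCLP.2 G 0 n (gConst b).2 (fun i => Fin.elim0 i) (DNF_gate G _ hb) (fun i => Fin.elim0 i)

theorem DNF_not (hCLP : CLP_stmt) (G : Set Gate) (hb : gNot ∈ G) (n : ℕ) (f : BF n)
    (hf : InCl G f) : InCl G (fun x => !(f x)) :=
  hCLP.2 G 1 n gNot.2 (fun _ => f) (DNF_gate G _ hb) (fun _ => hf)

theorem DNF_and (hCLP : CLP_stmt) (G : Set Gate) (hb : gAnd ∈ G) (n : ℕ) (f g : BF n)
    (hf : InCl G f) (hg : InCl G g) : InCl G (fun x => f x && g x) := by
  have h := hCLP.2 G 2 n gAnd.2 (fun i : Fin 2 => if i = 0 then f else g) (DNF_gate G _ hb) (by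
    intro i
    show InCl G (if (i : Fin 2) = 0 then f else g)
    by_cases hi : (i : Fin 2) = 0
    · rw [if_pos hi]
      exact hf
    · rw [if_neg hi]
      exact hg)
  exact h

theorem DNF_or (hCLP : CLP_stmt) (G : Set Gate) (hb : gOr ∈ G) (n : ℕ) (f g : BF n)
    (hf : InCl G f) (hg : InCl G g) : InCl G (fun x => f x || g x) := by
  have h := hCLP.2 G 2 n gOr.2 (fun i : Fin 2 => if i = 0 then f else g) (DNF_gate G _ hb) (by
    intro i
    show InCl G (if (i : Fin 2) = 0 then f else g)
    by_cases hi : (i : Fin 2) = 0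
    · rw [if_pos hi]
      exact hf
    · rw [if_neg hi]
      exact hg)
  exact h

theorem DNF_eta {n : ℕ} (x : Fin (n + 1) → Bool) :
    (Fin.cons (x 0) (fun i => x i.succ) : Fin (n + 1) → Bool) = x := by
  funext i
  refine Fin.cases ?_ (fun j => ?_) i
  · rfl
  · rfl

theorem DNF_a (hCLP : CLP_stmt) (n : ℕ) : ∀ f : BF n, InCl std f := by
  have hc : ∀ b : Bool, gConst b ∈ std := by
    intro b
    cases b
    · exact Or.inl rfl
    · exact Or.inr (Or.inl rfl)
  have hn : gNot ∈ std := Or.inr (Or.inr (Or.inl rfl))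
  have ha : gAnd ∈ std := Or.inr (Or.inr (Or.inr (Or.inl rfl)))
  have ho : gOr ∈ std := Or.inr (Or.inr (Or.inr (Or.inr rfl)))
  induction n with
  | zero =>
    intro f
    have e : f = fun _ => f (fun i => Fin.elim0 i) := by
      funext x
      congr 1
      funext i
      exact Fin.elim0 i
    rw [e]
    exact DNF_const hCLP std _ (hc _) 0
  | succ n ih =>
    intro f
    have h1 := hCLP.2 std n (n + 1) (fun x => f (Fin.cons true x)) (fun i x => x i.succ)
      (ih _) (fun i => hCLP.1 std (n + 1) i.succ)
    have h0 := hCLP.2 std n (n + 1) (fun x => f (Fin.cons false x)) (fun i x => x i.succ)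
      (ih _) (fun i => hCLP.1 std (n + 1) i.succ)
    have hv := hCLP.1 std (n + 1) 0
    have h2 := DNF_or hCLP std ho (n + 1) _ _ (DNF_and hCLP std ha (n + 1) _ _ hv h1)
      (DNF_and hCLP std ha (n + 1) _ _ (DNF_not hCLP std hn (n + 1) _ hv) h0)
    have e : f = fun x => ((x 0 && f (Fin.cons true fun i => x i.succ)) ||
        (!(x 0) && f (Fin.cons false fun i => x i.succ))) := by
      funext x
      have hx := DNF_eta x
      rcases Bool.eq_false_or_eq_true (x 0) with h | h
      · rw [h] at hx
        rw [h, hx]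
        simp
      · rw [h] at hx
        rw [h, hx]
        simp
    rw [e]
    exact h2

theorem DNF_b (hCLP : CLP_stmt) (n : ℕ) : ∀ f : BF n, Mono f → InCl mon f := by
  have hc : ∀ b : Bool, gConst b ∈ mon := by
    intro b
    cases b
    · exact Or.inl rfl
    · exact Or.inr (Or.inl rfl)
  have ha : gAnd ∈ mon := Or.inr (Or.inr (Or.inl rfl))
  have ho : gOr ∈ mon := Or.inr (Or.inr (Or.inr rfl))
  induction n with
  | zero =>
    intro f _
    have e : f = fun _ => f (fun i => Fin.elim0 i) := by
      funext x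
      congr 1
      funext i
      exact Fin.elim0 i
    rw [e]
    exact DNF_const hCLP mon _ (hc _) 0
  | succ n ih =>
    intro f hf
    have hmono : ∀ b : Bool, Mono (fun x : Fin n → Bool => f (Fin.cons b x)) := by
      intro b x y hxy h
      apply hf _ _ _ h
      intro i
      refine Fin.cases ?_ (fun j => ?_) i
      · exact fun h => h
      · exact fun h => hxy j h
    have h1 := hCLP.2 mon n (n + 1) (fun x => f (Fin.cons true x)) (fun i x => x i.succ)
      (ih _ (hmono true)) (fun i => hCLP.1 mon (n + 1) i.succ)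
    have h0 := hCLP.2 mon n (n + 1) (fun x => f (Fin.cons false x)) (fun i x => x i.succ)
      (ih _ (hmono false)) (fun i => hCLP.1 mon (n + 1) i.succ)
    have hv := hCLP.1 mon (n + 1) 0
    have h2 := DNF_or hCLP mon ho (n + 1) _ _ (DNF_and hCLP mon ha (n + 1) _ _ hv h1) h0
    have e : f = fun x => ((x 0 && f (Fin.cons true fun i => x i.succ)) ||
        f (Fin.cons false fun i => x i.succ)) := by
      funext x
      have hx := DNF_eta x
      rcases Bool.eq_false_or_eq_true (x 0) with h | h
      · rw [h] at hx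
        rw [h, hx]
        rcases Bool.eq_false_or_eq_true (f (Fin.cons false fun i => x i.succ)) with h3 | h3
        · have h4 : f x = true := by
            apply hf _ _ _ h3
            intro i
            refine Fin.cases ?_ (fun j => ?_) i
            · intro h5
              exact absurd h5 Bool.false_ne_true
            · exact fun h5 => h5
          rw [h4, h3]
          rfl
        · rw [h3]
          simp
      · rw [h] at hx
        rw [h, hx]
        simp
    rw [e]
    exact h2

theorem DNF (hCLP : CLP_stmt) : DNF_stmt := ⟨DNF_a hCLP, DNF_b hCLP⟩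

end Pool.Agent.PB
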