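import Pool.Agent.helper64.PB.SpecA

/-!
# pb:PRP (project MP_069684_lc, spec by helper64)
-/

set_option autoImplicit false

namespace Pool.Agent.PB

theorem PRP_ind (G : Set Gate) (n : ℕ) (P : BF n → Prop) (hvar : ∀ j : Fin n, P (fun x => x j))
    (hg : ∀ g ∈ G, ∀ a : Fin g.1 → BF n, (∀ i, P (a i)) → P (fun x => g.2 fun i => a i x))
    (l : List (BF n)) (hl : Prog G n l) : ∀ u ∈ l, P u := by
  induction hl with
  | nil =>
    intro u hu
    exact absurd hu List.not_mem_nil
  | step l g a hl hgG ha ih =>
    intro u hu
    rcases List.mem_cons.mp hu with h | h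
    · rw [h]
      apply hg g hgG
      intro i
      rcases ha i with h1 | ⟨j, hj⟩
      · exact ih (a i) h1
      · rw [hj]
        exact hvar j
    · exact ih u h

theorem PRP_cl (G : Set Gate) (n : ℕ) (P : BF n → Prop) (hvar : ∀ j : Fin n, P (fun x => x j))
    (hg : ∀ g ∈ G, ∀ a : Fin g.1 → BF n, (∀ i, P (a i)) → P (fun x => g.2 fun i => a i x))
    (f : BF n) (hf : InCl G f) : P f := by
  obtain ⟨s, l, hl, _, h | ⟨j, hj⟩⟩ := hf
  · exact PRP_ind G n P hvar hg l hl f h
  · rw [hj]
    exact hvar j

theorem PRP : PRP_stmt := by
  intro G n f hf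
  refine ⟨?_, ?_, ?_, ?_, ?_, ?_, ?_, ?_, ?_⟩
  · intro hG
    apply PRP_cl G n (fun f => Affine f) (fun j x y z => rfl) _ f hf
    intro g hgG a ha x y z
    show g.2 (fun i => a i (fun j => xor (x j) (xor (y j) (z j)))) = _
    have e : (fun i => a i (fun j => xor (x j) (xor (y j) (z j)))) =
        fun i => xor (a i x) (xor (a i y) (a i z)) := by
      funext i
      exact ha i x y z
    rw [e]
    exact hG g hgG _ _ _
  · intro hG
    apply PRP_cl G n (fun f => Conj f) (fun j x y => rfl) _ f hf
    intro g hgG a ha x y
    show g.2 (fun i => a i (fun j => x j && y j)) = _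
    have e : (fun i => a i (fun j => x j && y j)) = fun i => (a i x && a i y) := by
      funext i
      exact ha i x y
    rw [e]
    exact hG g hgG _ _
  · intro hG
    apply PRP_cl G n (fun f => Disj f) (fun j x y => rfl) _ f hf
    intro g hgG a ha x y
    show g.2 (fun i => a i (fun j => x j || y j)) = _
    have e : (fun i => a i (fun j => x j || y j)) = fun i => (a i x || a i y) := by
      funext i
      exact ha i x y
    rw [e]
    exact hG g hgG _ _
  · intro hG
    apply PRP_cl G n (fun f => Mono f) (fun j x y h h1 => h j h1) _ f hf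
    intro g hgG a ha x y hxy h1
    exact hG g hgG (fun i => a i x) (fun i => a i y) (fun i hi => ha i x y hxy hi) h1
  · intro hG
    apply PRP_cl G n (fun f => SelfDual f) (fun j x => rfl) _ f hf
    intro g hgG a ha x
    show g.2 (fun i => a i (fun j => !(x j))) = _
    have e : (fun i => a i (fun j => !(x j))) = fun i => !(a i x) := by
      funext i
      exact ha i x
    rw [e]
    exact hG g hgG _
  · intro k hG
    apply PRP_cl G n (fun f => Inter k f) (fun j a h => ⟨j, h⟩) _ f hf
    intro g hgG a ha b hb
    obtain ⟨i, hi⟩ := hG g hgG (fun j i => a i (b j)) hb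
    exact ha i b hi
  · intro hG
    apply PRP_cl G n (fun f => Star f) (fun j => Or.inr ⟨j, fun x h => h⟩) _ f hf
    intro g hgG a ha
    rcases hG g hgG with h | ⟨i, hi⟩
    · exact Or.inl (fun x => h _)
    · rcases ha i with h | ⟨j, hj⟩
      · left
        intro x
        by_contra hne
        have h1 : g.2 (fun i => a i x) = true := by
          rcases Bool.eq_false_or_eq_true (g.2 fun i => a i x) with h2 | h2
          · exact h2
          · exact absurd h2 hne
        have h2 := hi _ h1
        rw [h x] at h2
        exact Bool.false_ne_true h2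
      · right
        exact ⟨j, fun x h1 => hj x (hi _ h1)⟩
  · intro hG
    apply PRP_cl G n (fun f => f (fun _ => false) = false) (fun j => rfl) _ f hf
    intro g hgG a ha
    show g.2 (fun i => a i (fun _ => false)) = false
    have e : (fun i => a i (fun _ => false)) = fun _ => false := by
      funext i
      exact ha i
    rw [e]
    exact hG g hgG
  · intro hG
    apply PRP_cl G n (fun f => f (fun _ => true) = true) (fun j => rfl) _ f hf
    intro g hgG a ha
    show g.2 (fun i => a i (fun _ => true)) = true
    have e : (fun i => a i (fun _ => true)) = fun _ => true := by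
      funext i
      exact ha i
    rw [e]
    exact hG g hgG

end Pool.Agent.PB
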