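import Pool.Agent.helper64.PB.SpecA

/-!
# pb:STR (project MP_069684_lc, spec by helper64)
-/

set_option autoImplicit false

namespace Pool.Agent.PB

theorem STR (hTRB : TRB_stmt) (hDNF : DNF_stmt) : STR_stmt := by
  intro G hG
  exact hTRB std G hG (fun g _ => hDNF.1 g.1 g.2)

end Pool.Agent.PB
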